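import Pool.Agent.SPV.StmtsL

set_option autoImplicit false

namespace Pool.Agent.SPV.H86

open Finset Pool.Agent.SPV

theorem pow_val_add {q p : ℕ} [NeZero q] [Fact p.Prime] {z : ZMod p} (hz : z ^ q = 1)
    (u s τ α : ZMod q) :
    z ^ ((u * τ + s) * α).val = (z ^ u.val) ^ (τ * α).val * z ^ (s * α).val := by
  have e : (u * τ + s) * α = ((u.val * (τ * α).val + (s * α).val : ℕ) : ZMod q) := by
    push_cast
    rw [ZMod.natCast_zmod_val, ZMod.natCast_zmod_val, ZMod.natCast_zmod_val]
    ring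
  rw [e, ZMod.val_natCast, ← pow_eq_pow_mod _ hz, pow_add, pow_mul]

theorem van (h : PolStmt) : VanStmt := by
  intro q k p _ _ z hz t a β u s hβ hsum
  have hx : (z ^ u.val) ^ q = 1 := by
    rw [← pow_mul, mul_comm, pow_mul, hz, one_pow]
  rw [(h q k t a).1 (ZMod p) (z ^ u.val) hx]
  apply Matrix.exists_mulVec_eq_zero_iff.1
  have hz0 : z ≠ 0 := by
    intro h0
    rw [h0, zero_pow (NeZero.ne q)] at hz
    exact zero_ne_one hz
  refine ⟨fun j => β j * z ^ (s * a j).val, ?_, ?_⟩
  · obtain ⟨j, hj⟩ := hβ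
    intro h0
    have := congrFun h0 j
    simp only [Pi.zero_apply, mul_eq_zero] at this
    rcases this with h1 | h1
    · exact hj h1
    · exact pow_ne_zero _ hz0 h1
  · funext i
    rw [Matrix.mulVec, dotProduct, Pi.zero_apply, ← hsum i]
    apply Finset.sum_congr rfl
    intro j _
    rw [Matrix.of_apply, pow_val_add hz]
    ring

end Pool.Agent.SPV.H86
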